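import Mathlib

open Filter Topology
open scoped MultiplierAlgebra

namespace Pool.Agent.Results.MP_e20a4f_an.Transfer

/-- Every positive element is a zero divisor. -/
def IsZStar (C : Type*) [NonUnitalCStarAlgebra C] [PartialOrder C] : Prop :=
  ∀ x : C, 0 ≤ x → ∃ y, y ≠ 0 ∧ (x * y = 0 ∨ y * x = 0)

theorem result {A B : Type} [NonUnitalCStarAlgebra A] [PartialOrder A] [StarOrderedRing A]
    [NonUnitalCStarAlgebra B] [PartialOrder B] [StarOrderedRing B]
    (f : A →⋆ₙₐ[ℂ] 𝓜(ℂ, B)) (hf : Function.Injective f)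
    (hd : Dense (Submodule.span ℂ {x : B | ∃ a b, x = (f a).fst b} : Set B)) (hA : IsZStar A) :
    IsZStar B := by
  intro b hb
  by_contra hn
  have hb0 : ∀ y, y * b = 0 → y = 0 := fun y h => by_contra fun hy => hn ⟨y, hy, Or.inr h⟩
  have hU := CStarAlgebra.increasingApproximateUnit A
  have hn1 : ∀ a x, ‖(f a).fst x‖ ≤ ‖a‖ * ‖x‖ := fun a x => ((f a).fst.le_opNorm x).trans (by
    rw [DoubleCentralizer.norm_fst]
    gcongr
    exact NonUnitalStarAlgHom.norm_apply_le f a)
  have h1 : ∀ x ∈ Submodule.span ℂ {x : B | ∃ a b, x = (f a).fst b},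
      Tendsto (fun e => (f e).fst x) (CStarAlgebra.approximateUnit A) (𝓝 x) := fun x hx => by
    induction hx using Submodule.span_induction with
    | mem x hx =>
      obtain ⟨a, c, rfl⟩ := hx
      rw [tendsto_iff_norm_sub_tendsto_zero]
      refine squeeze_zero (fun _ => norm_nonneg _) (g := fun e => ‖e * a - a‖ * ‖c‖)
        (fun e => le_trans (le_of_eq ?_) (hn1 _ c)) ?_
      · simp [map_sub, map_mul]
      · simpa using (tendsto_iff_norm_sub_tendsto_zero.1 (hU.tendsto_mul_right a)).mul_const ‖c‖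
    | zero => simp
    | add x y _ _ hx hy => simpa using hx.add hy
    | smul c x _ hx => simpa using hx.const_smul c
  have h2 : ∀ k : ℕ, ∃ e : A, 0 ≤ e ∧ ‖e‖ ≤ 1 ∧ ‖(f e).fst b - b‖ ≤ 3 * (1 / 2) ^ k := fun k => by
    obtain ⟨x, hx, hxb⟩ := hd.exists_dist_lt b (by positivity : (0 : ℝ) < (1 / 2) ^ k)
    have := hU.neBot
    obtain ⟨e, h3, h4, h5⟩ := (hU.eventually_nonneg.and (hU.eventually_norm.and
      (Metric.tendsto_nhds.1 (h1 x hx) _ (by positivity : (0 : ℝ) < (1 / 2) ^ k)))).exists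
    refine ⟨e, h3, h4, ?_⟩
    rw [dist_eq_norm] at hxb h5
    have h6 := (hn1 e (b - x)).trans (mul_le_of_le_one_left (norm_nonneg _) h4)
    have h7 : (f e).fst b - b = (f e).fst (b - x) + ((f e).fst x - x) - (b - x) := by
      rw [map_sub]; abel
    rw [h7]
    linarith [norm_sub_le ((f e).fst (b - x) + ((f e).fst x - x)) (b - x),
      norm_add_le ((f e).fst (b - x)) ((f e).fst x - x)]
  choose e he0 he1 he using h2
  have hs : Summable fun k => (1 / 2 : ℝ) ^ k • e k :=
    .of_norm_bounded summable_geometric_two fun k => by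
      rw [norm_smul, Real.norm_of_nonneg (by positivity)]
      exact mul_le_of_le_one_right (by positivity) (he1 k)
  have hp : ∀ k, 0 ≤ (1 / 2 : ℝ) ^ k • e k := fun k => smul_nonneg (by positivity) (he0 k)
  have ha : 0 ≤ ∑' k, (1 / 2 : ℝ) ^ k • e k := tsum_nonneg hp
  obtain ⟨y, hy, h⟩ : ∃ y, y ≠ 0 ∧ y * ∑' k, (1 / 2 : ℝ) ^ k • e k = 0 := by
    obtain ⟨y, hy, h | h⟩ := hA _ ha
    · exact ⟨star y, star_ne_zero.2 hy, by
        rw [← ha.isSelfAdjoint.star_eq, ← star_mul, h, star_zero]⟩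
    · exact ⟨y, hy, h⟩
  have h3 : ∀ k, y * e k = 0 := fun k => by
    have h4 := star_right_conjugate_le_conjugate (hs.le_tsum k fun j _ => hp j) y
    rw [h, zero_mul] at h4
    have h5 := le_antisymm h4 (star_right_conjugate_nonneg (hp k) y)
    rw [mul_smul_comm, smul_mul_assoc, smul_eq_zero_iff_right (by positivity)] at h5
    obtain ⟨s, hs⟩ := CStarAlgebra.nonneg_iff_eq_mul_star_self.1 (he0 k)
    rw [hs, ← mul_assoc, mul_assoc, ← star_mul, CStarRing.mul_star_self_eq_zero_iff] at h5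
    rw [hs, ← mul_assoc, h5, zero_mul]
  have h4 : (f y).fst b = 0 := by
    have h5 : Tendsto (fun k => (f (e k)).fst b) atTop (𝓝 b) := by
      rw [tendsto_iff_norm_sub_tendsto_zero]
      refine squeeze_zero (fun _ => norm_nonneg _) he ?_
      simpa using (tendsto_pow_atTop_nhds_zero_of_lt_one (r := (1 / 2 : ℝ)) (by norm_num)
        (by norm_num)).const_mul 3
    refine tendsto_nhds_unique (((f y).fst.continuous.tendsto b).comp h5)
      (tendsto_const_nhds.congr fun k => ?_)
    have : (f (y * e k)).fst b = (f y).fst ((f (e k)).fst b) := by simp [map_mul]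
    rw [Function.comp, ← this, h3]; simp
  have h5 : (f y).snd = 0 := ContinuousLinearMap.ext fun c =>
    hb0 _ (by rw [(f y).central, h4, mul_zero])
  exact hy (hf (by rw [map_zero, ← norm_eq_zero, ← DoubleCentralizer.norm_snd, h5, norm_zero]))

end Pool.Agent.Results.MP_e20a4f_an.Transfer
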